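import Mathlib
import Pool.Agent.Y600.FB.Stm

/-!
# Project FB (helper600): periodic sets representing a countable partial order
-/

set_option autoImplicit false

namespace Pool.Agent.Y340.FB

open Pool.Agent.Y600.FB

/-- The truth values of the elements of a countable order, coded by the bits of `p`. -/
def rr (R : ℕ → ℕ → Prop) (p : ℕ) (n : ℕ) : Prop :=
  (p.testBit n = true ∨ ∃ j, ∃ _ : j < n, R j n ∧ rr R p j) ∧ ∀ j, (_ : j < n) → R n j → rr R p j
termination_by n

theorem rr_mono {R : ℕ → ℕ → Prop} (hR : ∀ a b c, R a b → R b c → R a c) (p N : ℕ) :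
    ∀ a b, a ≤ N → b ≤ N → R a b → rr R p a → rr R p b := by
  induction N with
  | zero =>
    intro a b ha hb _ h
    obtain rfl : a = b := by omega
    exact h
  | succ N ih =>
    intro a b ha hb hab h
    rcases lt_trichotomy a b with hlt | rfl | hlt
    · rw [rr]
      refine ⟨Or.inr ⟨a, hlt, hab, h⟩, fun j hj hbj => ?_⟩
      exact ih a j (by omega) (by omega) (hR _ _ _ hab hbj) h
    · exact h
    · rw [rr] at h
      exact h.2 b hlt hab

theorem rr_iff {R : ℕ → ℕ → Prop} {p M : ℕ}
    (hp : ∀ a b, a ≤ M → b ≤ M → R a b → p.testBit a = true → p.testBit b = true) :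
    ∀ n, n ≤ M → (rr R p n ↔ p.testBit n = true) := by
  intro n
  induction n using Nat.strong_induction_on with
  | _ n ih =>
    intro hn
    rw [rr]
    constructor
    · rintro ⟨h | ⟨j, hj, hjn, h⟩, -⟩
      · exact h
      · exact hp j n (by omega) hn hjn ((ih j hj (by omega)).1 h)
    · intro h
      exact ⟨Or.inl h, fun j hj hnj => (ih j hj (by omega)).2 (hp n j hn (by omega) hnj h)⟩

theorem rr_congr {R : ℕ → ℕ → Prop} {p q : ℕ} :
    ∀ n, (∀ j ≤ n, p.testBit j = q.testBit j) → (rr R p n ↔ rr R q n) := by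
  intro n
  induction n using Nat.strong_induction_on with
  | _ n ih =>
    intro h
    have h1 : ∀ j, j < n → (rr R p j ↔ rr R q j) := fun j hj => ih j hj fun i hi => h i (by omega)
    rw [rr, rr, h n le_rfl]
    refine and_congr (or_congr Iff.rfl (exists_congr fun j => exists_congr fun hj =>
      and_congr Iff.rfl (h1 j hj))) (forall_congr' fun j => forall_congr' fun hj =>
      imp_congr Iff.rfl (h1 j hj))

theorem exists_bits (P : ℕ → Prop) (N : ℕ) :
    ∃ a : ℕ, a < 2 ^ N ∧ ∀ n < N, (a.testBit n = true ↔ P n) := by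
  classical
  refine ⟨Nat.ofBits (fun i : Fin N => decide (P i)), Nat.ofBits_lt_two_pow _, fun n hn => ?_⟩
  rw [Nat.testBit_ofBits_lt _ _ hn]
  exact decide_eq_true_iff

theorem rr_mod (R : ℕ → ℕ → Prop) (p n : ℕ) : rr R (p % 2 ^ (n + 1)) n ↔ rr R p n := by
  refine rr_congr n fun j hj => ?_
  rw [Nat.testBit_mod_two_pow, decide_eq_true (by omega : j < n + 1), Bool.true_and]

/-- Periodic sets representing a countable partial order. -/
theorem t_POS : Pool.Agent.Y600.FB.S_POS := by
  classical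
  intro I _ _
  obtain ⟨e, he⟩ := exists_injective_nat I
  set R : ℕ → ℕ → Prop := fun a b => ∃ i j : I, e i = a ∧ e j = b ∧ i ≤ j with hRdef
  have hR : ∀ a b c, R a b → R b c → R a c := by
    rintro a b c ⟨i, j, rfl, rfl, hij⟩ ⟨i', j', h1, rfl, hij'⟩
    obtain rfl := he h1
    exact ⟨i, j', rfl, rfl, hij.trans hij'⟩
  refine ⟨fun i => 2 ^ (e i + 1), fun i p => decide (rr R p (e i)), fun i => by positivity,
    ?_, ?_⟩
  · intro i j hij p h
    rw [decide_eq_true_iff, rr_mod] at h ⊢
    exact rr_mono hR p (max (e i) (e j)) _ _ (le_max_left _ _) (le_max_right _ _)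
      ⟨i, j, rfl, rfl, hij⟩ h
  · intro i j hij k
    set M : ℕ := max (e i) (e j) with hM
    obtain ⟨a, ha, hab⟩ := exists_bits (fun n => R (e i) n) (M + 1)
    have hpos : 0 < 2 ^ (M + 1) := by positivity
    have hk : k + 1 ≤ 2 ^ (M + 1) * (k + 1) := Nat.le_mul_of_pos_left _ hpos
    refine ⟨a + 2 ^ (M + 1) * (k + 1) - 1, by omega, ?_⟩
    have e1 : a + 2 ^ (M + 1) * (k + 1) - 1 + 1 = a + 2 ^ (M + 1) * (k + 1) := by omega
    rw [e1]
    have hbit : ∀ n ≤ M, ((a + 2 ^ (M + 1) * (k + 1)).testBit n = true ↔ R (e i) n) := by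
      intro n hn
      have h1 := Nat.testBit_mod_two_pow (a + 2 ^ (M + 1) * (k + 1)) (M + 1) n
      rw [Nat.add_mul_mod_self_left, Nat.mod_eq_of_lt ha,
        decide_eq_true (by omega : n < M + 1), Bool.true_and] at h1
      rw [← h1]
      exact hab n (by omega)
    have hiff : ∀ n ≤ M, (rr R (a + 2 ^ (M + 1) * (k + 1)) n ↔ R (e i) n) := by
      intro n hn
      rw [rr_iff (M := M) _ n hn, hbit n hn]
      intro x y hx hy hxy h
      rw [hbit x hx] at h
      rw [hbit y hy]
      exact hR _ _ _ h hxy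
    constructor
    · rw [decide_eq_true_iff, rr_mod, hiff _ (le_max_left _ _)]
      exact ⟨i, i, rfl, rfl, le_rfl⟩
    · rw [decide_eq_false_iff_not, rr_mod, hiff _ (le_max_right _ _)]
      rintro ⟨i', j', h1, h2, h3⟩
      obtain rfl := he h1
      obtain rfl := he h2
      exact hij h3

end Pool.Agent.Y340.FB
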